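import Mathlib

/-!
Block NUM1 (helper46): from the inequality of capacities with a margin to the discrete inequality,
in the form with test points.
-/

namespace Pool.Agent.Work.MP_f2148a_nt.M56.NUM

open Finset

/-- the number of exponents below a line -/
theorem card_lt (a b T : ℝ) (ha : 0 < a) (hb : 0 < b) (hT : 0 ≤ T) (E : Finset (ℕ × ℕ))
    (hE : ∀ e ∈ E, a * e.1 + b * e.2 < T) :
    (E.card : ℝ) ≤ (T + b) ^ 2 / (2 * a * b) + T / b + 1 := by
  set R : ℕ := ⌈T / b⌉₊ with hR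
  have hRle : (R : ℝ) < T / b + 1 := Nat.ceil_lt_add_one (by positivity)
  have hsub : E ⊆ ((range R).sigma (fun k => range ⌈(T - b * k) / a⌉₊)).image
      (fun p => (p.2, p.1)) := by
    intro e he
    have h1 := hE e he
    rw [mem_image]
    refine ⟨⟨e.2, e.1⟩, ?_, rfl⟩
    rw [mem_sigma, mem_range, mem_range]
    constructor
    · show e.2 < R
      rw [hR, Nat.lt_ceil, lt_div_iff₀ hb]
      have : 0 ≤ a * (e.1 : ℝ) := by positivity
      nlinarith
    · show e.1 < ⌈(T - b * (e.2 : ℝ)) / a⌉₊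
      rw [Nat.lt_ceil, lt_div_iff₀ ha]
      nlinarith
  have hc1 : E.card ≤ ∑ k ∈ range R, ⌈(T - b * k) / a⌉₊ := by
    refine (card_le_card hsub).trans (card_image_le.trans ?_)
    rw [card_sigma]
    simp
  have hc2 : (E.card : ℝ) ≤ ∑ k ∈ range R, ((T - b * k) / a + 1) := by
    have : (E.card : ℝ) ≤ ((∑ k ∈ range R, ⌈(T - b * k) / a⌉₊ : ℕ) : ℝ) := by exact_mod_cast hc1
    refine this.trans ?_
    push_cast
    refine sum_le_sum ?_
    intro k hk
    rw [mem_range, hR, Nat.lt_ceil, lt_div_iff₀ hb] at hk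
    refine (Nat.ceil_lt_add_one ?_).le
    apply div_nonneg _ ha.le
    linarith
  have hsum : ∑ k ∈ range R, ((T - b * (k : ℝ)) / a + 1) =
      (R * T - b * (R * (R - 1) / 2)) / a + R := by
    have hg : ∑ k ∈ range R, (k : ℝ) = R * (R - 1) / 2 := by
      have := Finset.sum_range_id_mul_two R
      have h2 : ((∑ k ∈ range R, k : ℕ) : ℝ) * 2 = R * ((R - 1 : ℕ) : ℝ) := by exact_mod_cast this
      rcases Nat.eq_zero_or_pos R with h0 | h0
      · simp [h0]
      · rw [Nat.cast_sub h0] at h2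
        push_cast at h2
        linarith
    rw [sum_add_distrib, ← sum_div, sum_sub_distrib, ← mul_sum, hg]
    simp
  rw [hsum] at hc2
  have hkey : (R : ℝ) * T - b * (R * (R - 1) / 2) ≤ (T + b) ^ 2 / (2 * b) := by
    rw [le_div_iff₀ (by positivity)]
    nlinarith [sq_nonneg (b * R - T - b / 2), hT, hb.le, mul_nonneg hT hb.le, sq_nonneg b]
  have h3 : ((R : ℝ) * T - b * (R * (R - 1) / 2)) / a ≤ (T + b) ^ 2 / (2 * a * b) := by
    calc ((R : ℝ) * T - b * (R * (R - 1) / 2)) / a ≤ ((T + b) ^ 2 / (2 * b)) / a := by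
          gcongr
      _ = (T + b) ^ 2 / (2 * a * b) := by
          rw [div_div]; congr 1; ring
  linarith

/-- exchange: the exponents below the line are the smallest ones -/
theorem sum_ge (a b T : ℝ) (E : Finset (ℕ × ℕ)) (hE : ∀ e ∈ E, a * e.1 + b * e.2 < T)
    (hE' : ∀ e : ℕ × ℕ, e ∉ E → T ≤ a * e.1 + b * e.2) (T' : Finset (ℕ × ℕ)) (D : ℕ)
    (hc : T'.card = D + E.card) :
    ∑ e ∈ E, (a * e.1 + b * e.2) + D * T ≤ ∑ e ∈ T', (a * (e.1 : ℝ) + b * e.2) := by
  classical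
  have h1 : ∑ e ∈ T' \ E, (a * (e.1 : ℝ) + b * e.2) ≥ (T' \ E).card * T := by
    have : ∑ e ∈ T' \ E, T ≤ ∑ e ∈ T' \ E, (a * (e.1 : ℝ) + b * e.2) :=
      sum_le_sum (fun e he => hE' e (mem_sdiff.1 he).2)
    simpa using this
  have h2 : ∑ e ∈ E \ T', (a * (e.1 : ℝ) + b * e.2) ≤ (E \ T').card * T := by
    have : ∑ e ∈ E \ T', (a * (e.1 : ℝ) + b * e.2) ≤ ∑ e ∈ E \ T', T :=
      sum_le_sum (fun e he => (hE e (mem_sdiff.1 he).1).le)
    simpa using this
  have h3 : ∑ e ∈ T', (a * (e.1 : ℝ) + b * e.2) =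
      ∑ e ∈ T' \ E, (a * (e.1 : ℝ) + b * e.2) + ∑ e ∈ T' ∩ E, (a * (e.1 : ℝ) + b * e.2) := by
    rw [add_comm, sum_inter_add_sum_sdiff]
  have h4 : ∑ e ∈ E, (a * (e.1 : ℝ) + b * e.2) =
      ∑ e ∈ E \ T', (a * (e.1 : ℝ) + b * e.2) + ∑ e ∈ T' ∩ E, (a * (e.1 : ℝ) + b * e.2) := by
    rw [add_comm, inter_comm, sum_inter_add_sum_sdiff]
  have h5 : (T' \ E).card + (T' ∩ E).card = T'.card := by
    rw [card_sdiff_add_card_inter]
  have h6 : (E \ T').card + (T' ∩ E).card = E.card := by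
    rw [inter_comm, card_sdiff_add_card_inter]
  have h7 : (T' \ E).card = D + (E \ T').card := by omega
  have h8 : ((T' \ E).card : ℝ) = D + (E \ T').card := by exact_mod_cast h7
  rw [h8] at h1
  rw [h3, h4]
  nlinarith

/-- the real inequality: `G = a b / w`, `X = al s + be q` -/
theorem real_ineq (eps C0 : ℝ) (hC0 : 1 ≤ C0)
    (a b s q h om w al be : ℝ) (m n : ℝ) (L D A B N : ℝ)
    (ha : 1 / C0 ≤ a) (ha2 : a ≤ C0) (hb : 1 / C0 ≤ b) (hb2 : b ≤ C0)
    (hs : 0 ≤ s) (hs2 : s ≤ C0) (hq : 0 ≤ q) (hq2 : q ≤ C0) (hh : |h| ≤ C0)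
    (hom : 0 ≤ om) (hom2 : om ≤ C0) (hw : 1 / C0 ≤ w) (hw2 : w ≤ C0)
    (hm : 1 ≤ m) (hm2 : m ≤ C0) (hn : 1 ≤ n) (hn2 : n ≤ C0) (hal : 0 ≤ al) (hbe : 0 ≤ be)
    (hab : n * al + m * be = 1)
    (hst : 2 * (al * s + be * q) - 2 * al * be * h + eps ≤ a * b / w + om)
    (hL : 1 ≤ L) (hA0 : 0 ≤ A) (hA1 : A ≤ al * L) (hA2 : al * L - 1 ≤ A)
    (hB0 : 0 ≤ B) (hB1 : B ≤ be * L) (hB2 : be * L - 1 ≤ B)
    (hD : D = n * A + m * B + m * n)
    (hN : N ≤ (D * (a * b / w) + b) ^ 2 / (2 * a * b) + D * (a * b / w) / b + 1) :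
    L ^ 2 * eps / 2 - 20 * C0 ^ 5 * L ≤
      D * (D * (a * b / w)) - w * N + A * B * h + om * (D * (D - 1) / 2)
        - D * ((m - 1 + A) * s + (n - 1 + B) * q) := by
  have hC : 0 < C0 := by linarith
  have hi : 0 < 1 / C0 := by positivity
  have ha0 : 0 < a := by linarith
  have hb0 : 0 < b := by linarith
  have hw0 : 0 < w := by linarith
  have hia : 1 / a ≤ C0 := by
    rw [div_le_iff₀ ha0]
    rw [div_le_iff₀ hC] at ha
    linarith
  have hiw : 1 / w ≤ C0 := by
    rw [div_le_iff₀ hw0]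
    rw [div_le_iff₀ hC] at hw
    linarith
  set G := a * b / w with hG
  have hG0 : 0 < G := by positivity
  have hG3 : G ≤ C0 ^ 3 := by
    have h1 : G = a * b * (1 / w) := by rw [hG]; ring
    rw [h1]
    calc a * b * (1 / w) ≤ C0 * C0 * C0 := by gcongr
      _ = C0 ^ 3 := by ring
  set X := al * s + be * q with hX
  have hal1 : al ≤ 1 := by nlinarith [mul_nonneg (by linarith : (0:ℝ) ≤ m) hbe]
  have hbe1 : be ≤ 1 := by nlinarith [mul_nonneg (by linarith : (0:ℝ) ≤ n) hal]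
  have hX0 : 0 ≤ X := by positivity
  have hX2 : X ≤ 2 * C0 := by
    have h1 : al * s ≤ 1 * C0 := by gcongr
    have h2 : be * q ≤ 1 * C0 := by gcongr
    linarith
  -- bounds of D
  have hDle : D ≤ L + m * n := by
    have h1 : n * A ≤ n * (al * L) := by gcongr
    have h2 : m * B ≤ m * (be * L) := by gcongr
    have h3 : n * (al * L) + m * (be * L) = L := by
      calc n * (al * L) + m * (be * L) = (n * al + m * be) * L := by ring
        _ = L := by rw [hab, one_mul]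
    linarith
  have hDge : L - 1 ≤ D := by
    have h1 : n * (al * L - 1) ≤ n * A := by gcongr
    have h2 : m * (be * L - 1) ≤ m * B := by gcongr
    have h3 : n * (al * L) + m * (be * L) = L := by
      calc n * (al * L) + m * (be * L) = (n * al + m * be) * L := by ring
        _ = L := by rw [hab, one_mul]
    nlinarith [mul_nonneg (sub_nonneg.2 hm) (sub_nonneg.2 hn)]
  have hD0 : 0 ≤ D := by linarith
  have hmn : m * n ≤ C0 ^ 2 := by
    calc m * n ≤ C0 * C0 := by gcongr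
      _ = C0 ^ 2 := by ring
  have hmn0 : 0 ≤ m * n := by positivity
  -- the first part
  have h1 : w * N ≤ D ^ 2 * G / 2 + D * (a + b) + w * b * (1 / a) / 2 + w := by
    have h2 : w * N ≤ w * ((D * G + b) ^ 2 / (2 * a * b) + D * G / b + 1) := by gcongr
    have h3 : w * ((D * G + b) ^ 2 / (2 * a * b) + D * G / b + 1) =
        D ^ 2 * G / 2 + D * (a + b) + w * b * (1 / a) / 2 + w := by
      rw [hG]
      field_simp
      ring
    linarith
  have hwba : w * b * (1 / a) / 2 + w ≤ 2 * C0 ^ 3 := by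
    have h2 : w * b * (1 / a) ≤ C0 * C0 * C0 := by gcongr
    have h3 : w ≤ C0 ^ 3 := by
      calc w ≤ C0 * 1 * 1 := by linarith
        _ ≤ C0 * C0 * C0 := by gcongr
        _ = C0 ^ 3 := by ring
    have h4 : 0 ≤ C0 ^ 3 := by positivity
    nlinarith
  -- the square of D
  have hsq : L ^ 2 - 2 * L ≤ D ^ 2 := by nlinarith [sq_nonneg (D - (L - 1))]
  have hGom : 0 ≤ G + om := by linarith
  have h2 : (L ^ 2 / 2) * (2 * X - 2 * al * be * h + eps) - L * (G + om) ≤
      (D ^ 2 / 2) * (G + om) := by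
    have h3 : (L ^ 2 - 2 * L) / 2 * (G + om) ≤ (D ^ 2 / 2) * (G + om) := by
      apply mul_le_mul_of_nonneg_right _ hGom
      linarith
    have h4 : (L ^ 2 / 2) * (2 * X - 2 * al * be * h + eps) ≤ (L ^ 2 / 2) * (G + om) := by
      apply mul_le_mul_of_nonneg_left hst (by positivity)
    linarith
  -- the product A B
  have h3 : al * be * L ^ 2 * h - 2 * C0 * L ≤ A * B * h := by
    have hle : A * B ≤ al * L * (be * L) := by gcongr
    have hge : al * L * (be * L) - (al + be) * L ≤ A * B := by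
      rcases le_total (al * L - 1) 0 with h4 | h4
      · have h5 : 0 ≤ A * B := by positivity
        have h6 : al * L * (be * L) ≤ 1 * (be * L) := by
          apply mul_le_mul_of_nonneg_right _ (by positivity)
          linarith
        have h7 : 0 ≤ al * L := by positivity
        linarith
      · rcases le_total (be * L - 1) 0 with h5 | h5
        · have h6 : 0 ≤ A * B := by positivity
          have h7 : al * L * (be * L) ≤ al * L * 1 := by
            apply mul_le_mul_of_nonneg_left _ (by positivity)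
            linarith
          have h8 : 0 ≤ be * L := by positivity
          linarith
        · have h6 : (al * L - 1) * (be * L - 1) ≤ A * B := by gcongr
          linarith
    have habs := abs_le.1 hh
    have hal2 : (al + be) * L ≤ 2 * L := by
      apply mul_le_mul_of_nonneg_right _ (by linarith)
      linarith
    have hd : |A * B * h - al * be * L ^ 2 * h| ≤ 2 * L * C0 := by
      have h9 : A * B * h - al * be * L ^ 2 * h = (A * B - al * L * (be * L)) * h := by ring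
      rw [h9, abs_mul]
      have h10 : |A * B - al * L * (be * L)| ≤ 2 * L := by
        rw [abs_le]
        constructor
        · linarith
        · linarith
      gcongr
    have h11 := (abs_le.1 hd).1
    linarith
  -- the cost
  have h4 : D * (A * s + B * q) ≤ L ^ 2 * X + 2 * C0 ^ 3 * L := by
    have h5 : A * s + B * q ≤ L * X := by
      have : A * s ≤ al * L * s := by gcongr
      have : B * q ≤ be * L * q := by gcongr
      rw [hX]
      linarith
    have h6 : D * (A * s + B * q) ≤ (L + m * n) * (L * X) := by gcongr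
    have h7 : m * n * (L * X) ≤ C0 ^ 2 * (L * (2 * C0)) := by gcongr
    linarith
  have h5 : D * (a + b + om / 2 + (m - 1) * s + (n - 1) * q) ≤ (L + C0 ^ 2) * (5 * C0 ^ 2) := by
    have h6 : a + b + om / 2 + (m - 1) * s + (n - 1) * q ≤ 5 * C0 ^ 2 := by
      have h7 : (m - 1) * s ≤ C0 * C0 := by
        apply mul_le_mul _ hs2 hs hC.le
        linarith
      have h8 : (n - 1) * q ≤ C0 * C0 := by
        apply mul_le_mul _ hq2 hq hC.le
        linarith
      nlinarith
    have h6' : 0 ≤ a + b + om / 2 + (m - 1) * s + (n - 1) * q := by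
      have := mul_nonneg (sub_nonneg.2 hm) hs
      have := mul_nonneg (sub_nonneg.2 hn) hq
      linarith
    apply mul_le_mul _ h6 h6' (by positivity)
    linarith
  -- collect
  have hp2 : C0 ^ 2 ≤ C0 ^ 5 := pow_le_pow_right₀ hC0 (by norm_num)
  have hp3 : C0 ^ 3 ≤ C0 ^ 5 := pow_le_pow_right₀ hC0 (by norm_num)
  have hp4 : C0 ^ 4 ≤ C0 ^ 5 := pow_le_pow_right₀ hC0 (by norm_num)
  have hp1 : C0 ≤ C0 ^ 5 := by
    calc C0 = C0 ^ 1 := by ring
      _ ≤ C0 ^ 5 := pow_le_pow_right₀ hC0 (by norm_num)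
  have h6 : L * (G + om) ≤ L * (2 * C0 ^ 5) := by
    apply mul_le_mul_of_nonneg_left _ (by linarith)
    linarith
  have hP : 0 ≤ C0 ^ 5 := by positivity
  have hPL : C0 ^ 5 ≤ C0 ^ 5 * L := by nlinarith
  have h7 : (L + C0 ^ 2) * (5 * C0 ^ 2) ≤ 10 * C0 ^ 5 * L := by
    have h8 : L * C0 ^ 2 ≤ L * C0 ^ 5 := by
      apply mul_le_mul_of_nonneg_left hp2 (by linarith)
    nlinarith
  have h8 : 2 * C0 ^ 3 * L ≤ 2 * C0 ^ 5 * L := by
    apply mul_le_mul_of_nonneg_right _ (by linarith)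
    linarith
  have h9 : 2 * C0 * L ≤ 2 * C0 ^ 5 * L := by
    apply mul_le_mul_of_nonneg_right _ (by linarith)
    linarith
  have h10 : D * (D * G) - w * N + A * B * h + om * (D * (D - 1) / 2)
        - D * ((m - 1 + A) * s + (n - 1 + B) * q) ≥
      (D ^ 2 / 2) * (G + om) - (w * b * (1 / a) / 2 + w) + A * B * h - D * (A * s + B * q)
        - D * (a + b + om / 2 + (m - 1) * s + (n - 1) * q) := by
    linarith
  linarith

theorem disc (eps C0 : ℝ) (heps : 0 < eps) (hC0 : 1 ≤ C0) :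
    ∃ L0 : ℕ, ∀ (a b s q h om w al be : ℝ) (m n : ℕ),
      1 / C0 ≤ a → a ≤ C0 → 1 / C0 ≤ b → b ≤ C0 → 0 ≤ s → s ≤ C0 → 0 ≤ q → q ≤ C0 →
      |h| ≤ C0 → 0 ≤ om → om ≤ C0 → 1 / C0 ≤ w → w ≤ C0 →
      1 ≤ m → (m : ℝ) ≤ C0 → 1 ≤ n → (n : ℝ) ≤ C0 → 0 ≤ al → 0 ≤ be → n * al + m * be = 1 →
      2 * (al * s + be * q) - 2 * al * be * h + eps ≤ a * b / w + om →
      ∃ (A B : ℕ) (E : Finset (ℕ × ℕ)), A ≤ L0 ∧ B ≤ L0 ∧ E.card ≤ L0 ∧
        (∀ e ∈ E, e.1 ≤ L0 ∧ e.2 ≤ L0) ∧
        ∀ (D : ℕ) (T' : Finset (ℕ × ℕ)), D = n * A + m * B + m * n → T'.card = D + E.card →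
          1 ≤ ∑ e ∈ T', (a * (e.1 : ℝ) + b * e.2) - ∑ e ∈ E, (a * (e.1 : ℝ) + b * e.2)
            - w * E.card + A * B * h + om * ((D : ℝ) * (D - 1) / 2)
            - D * ((m - 1 + A) * s + (n - 1 + B) * q) := by
  obtain ⟨L, hL⟩ := exists_nat_ge (max 1 ((2 / eps) * (20 * C0 ^ 5 + 1)))
  have hL1 : (1 : ℝ) ≤ L := (le_max_left _ _).trans hL
  have hL2 : (2 / eps) * (20 * C0 ^ 5 + 1) ≤ L := (le_max_right _ _).trans hL
  have hC : 0 < C0 := by linarith
  obtain ⟨N0, hN0⟩ := exists_nat_ge ((L + C0 ^ 2) * C0 ^ 4 + 1)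
  refine ⟨max L ((N0 + 1) * (N0 + 1)), ?_⟩
  intro a b s q h om w al be m n ha ha2 hb hb2 hs hs2 hq hq2 hh hom hom2 hw hw2 hm hm2 hn hn2
    hal hbe hab hst
  have hi : 0 < 1 / C0 := by positivity
  have ha0 : 0 < a := by linarith
  have hb0 : 0 < b := by linarith
  have hw0 : 0 < w := by linarith
  have hm' : (1 : ℝ) ≤ m := by exact_mod_cast hm
  have hn' : (1 : ℝ) ≤ n := by exact_mod_cast hn
  have hal1 : al ≤ 1 := by nlinarith [mul_nonneg (by linarith : (0:ℝ) ≤ m) hbe]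
  have hbe1 : be ≤ 1 := by nlinarith [mul_nonneg (by linarith : (0:ℝ) ≤ n) hal]
  set A : ℕ := ⌊al * L⌋₊ with hA
  set B : ℕ := ⌊be * L⌋₊ with hB
  have hA1 : (A : ℝ) ≤ al * L := Nat.floor_le (by positivity)
  have hB1 : (B : ℝ) ≤ be * L := Nat.floor_le (by positivity)
  have hA2 : al * L - 1 ≤ A := by
    have := Nat.lt_floor_add_one (al * (L : ℝ))
    rw [← hA] at this
    linarith
  have hB2 : be * L - 1 ≤ B := by
    have := Nat.lt_floor_add_one (be * (L : ℝ))
    rw [← hB] at this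
    linarith
  have hDle : ((n * A + m * B + m * n : ℕ) : ℝ) ≤ L + C0 ^ 2 := by
    push_cast
    have h1 : (n : ℝ) * A ≤ n * (al * L) := by gcongr
    have h2 : (m : ℝ) * B ≤ m * (be * L) := by gcongr
    have h3 : (n : ℝ) * (al * L) + m * (be * L) = L := by
      calc (n : ℝ) * (al * L) + m * (be * L) = (n * al + m * be) * L := by ring
        _ = L := by rw [hab, one_mul]
    have h4 : (m : ℝ) * n ≤ C0 * C0 := by gcongr
    nlinarith
  set T : ℝ := ((n * A + m * B + m * n : ℕ) : ℝ) * (a * b / w) with hT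
  have hT0 : 0 ≤ T := by positivity
  have hTle : T ≤ (L + C0 ^ 2) * C0 ^ 3 := by
    have hiw : 1 / w ≤ C0 := by
      rw [div_le_iff₀ hw0]
      rw [div_le_iff₀ hC] at hw
      linarith
    have h1 : a * b / w ≤ C0 ^ 3 := by
      have h1 : a * b / w = a * b * (1 / w) := by ring
      rw [h1]
      calc a * b * (1 / w) ≤ C0 * C0 * C0 := by gcongr
        _ = C0 ^ 3 := by ring
    rw [hT]
    gcongr
  have hbig : ∀ (c : ℝ) (k : ℕ), 1 / C0 ≤ c → N0 + 1 ≤ k → T ≤ c * k := by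
    intro c k hc hk
    have h1 : ((N0 + 1 : ℕ) : ℝ) ≤ k := by exact_mod_cast hk
    push_cast at h1
    have h2 : (1 / C0) * ((L + C0 ^ 2) * C0 ^ 4) ≤ c * k := by
      apply mul_le_mul hc _ (by positivity) (by linarith)
      linarith
    have h3 : (1 / C0) * ((L + C0 ^ 2) * C0 ^ 4) = (L + C0 ^ 2) * C0 ^ 3 := by
      field_simp
    linarith
  set E : Finset (ℕ × ℕ) := (range (N0 + 1) ×ˢ range (N0 + 1)).filter
    (fun e => a * (e.1 : ℝ) + b * e.2 < T) with hE
  have hE1 : ∀ e ∈ E, a * (e.1 : ℝ) + b * e.2 < T := fun e he => (mem_filter.1 he).2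
  have hE2 : ∀ e : ℕ × ℕ, e ∉ E → T ≤ a * (e.1 : ℝ) + b * e.2 := by
    intro e he
    by_contra hlt
    push Not at hlt
    apply he
    rw [hE, mem_filter, mem_product, mem_range, mem_range]
    refine ⟨⟨?_, ?_⟩, hlt⟩
    · by_contra h1
      have := hbig a e.1 ha (by omega)
      have h2 : 0 ≤ b * (e.2 : ℝ) := by positivity
      linarith
    · by_contra h1
      have := hbig b e.2 hb (by omega)
      have h2 : 0 ≤ a * (e.1 : ℝ) := by positivity
      linarith
  refine ⟨A, B, E, ?_, ?_, ?_, ?_, ?_⟩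
  · refine le_trans ?_ (le_max_left _ _)
    have h1 : (A : ℝ) ≤ L := hA1.trans (by nlinarith)
    exact_mod_cast h1
  · refine le_trans ?_ (le_max_left _ _)
    have h1 : (B : ℝ) ≤ L := hB1.trans (by nlinarith)
    exact_mod_cast h1
  · refine le_trans ?_ (le_max_right _ _)
    refine (card_filter_le _ _).trans ?_
    rw [card_product, card_range]
  · intro e he
    have h1 := (mem_filter.1 he).1
    rw [mem_product, mem_range, mem_range] at h1
    have h2 : N0 + 1 ≤ max L ((N0 + 1) * (N0 + 1)) :=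
      le_trans (by nlinarith) (le_max_right _ _)
    omega
  · intro D T' hD hT'
    have h1 := sum_ge a b T E hE1 hE2 T' D hT'
    have h2 := card_lt a b T ha0 hb0 hT0 E hE1
    have hD' : (D : ℝ) = n * A + m * B + m * n := by
      rw [hD]; push_cast; ring
    have hTD : T = (D : ℝ) * (a * b / w) := by rw [hT, hD]
    have h3 := real_ineq eps C0 hC0 a b s q h om w al be m n L D A B E.card ha ha2 hb hb2 hs hs2
      hq hq2 hh hom hom2 hw hw2 hm' hm2 hn' hn2 hal hbe hab hst hL1 (by positivity) hA1 hA2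
      (by positivity) hB1 hB2 hD' (by rw [← hTD]; exact h2)
    have h4 : 1 ≤ (L : ℝ) ^ 2 * eps / 2 - 20 * C0 ^ 5 * L := by
      have h5 : 20 * C0 ^ 5 + 1 ≤ L * eps / 2 := by
        have h6 := mul_le_mul_of_nonneg_right hL2 (by positivity : (0:ℝ) ≤ eps / 2)
        have h7 : 2 / eps * (20 * C0 ^ 5 + 1) * (eps / 2) = 20 * C0 ^ 5 + 1 := by
          field_simp
        linarith
      nlinarith
    rw [hTD] at h1
    linarith

end Pool.Agent.Work.MP_f2148a_nt.M56.NUM
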